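import Mathlib

/-!
# Polynomially many vertices of reachable sets: adding matrices of rank at most one

If a finite set `S₀` of real `n × n` matrices has property (PV), then so does every finite set that
arises from `S₀` by adding matrices of rank at most one.
-/

set_option autoImplicit false

namespace Pool.Agent.Results.MP_34a884_an.RankOneExtension

open Matrix

variable {n : ℕ}

/-- The states that can be reached from `a` in `k` steps `x ↦ T x` with `T ∈ S`. -/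
def reach (S : Finset (Matrix (Fin n) (Fin n) ℝ)) (a : Fin n → ℝ) : ℕ → Set (Fin n → ℝ)
  | 0 => {a}
  | k + 1 => {y | ∃ T ∈ S, ∃ x ∈ reach S a k, y = T *ᵥ x}

/-- The number of extreme points of the convex hull `P_k(S, a)` of the reachable states. -/
noncomputable def numExt (S : Finset (Matrix (Fin n) (Fin n) ℝ)) (k : ℕ) (a : Fin n → ℝ) : ℕ :=
  (Set.extremePoints ℝ (convexHull ℝ (reach S a k))).ncard

/-- Property (PV): `N_k(S) = sup_a numExt S k a` is at most `α k ^ d` for all large `k`. -/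
def PV (S : Finset (Matrix (Fin n) (Fin n) ℝ)) : Prop :=
  ∃ α d : ℝ, 0 < α ∧ 0 < d ∧ ∃ k₀ : ℕ, 0 < k₀ ∧ ∀ k ≥ k₀, ∀ a : Fin n → ℝ,
    (numExt S k a : ℝ) ≤ α * (k : ℝ) ^ d

/-- the products of `k` matrices of `S` -/
def prods (S : Finset (Matrix (Fin n) (Fin n) ℝ)) : ℕ → Set (Matrix (Fin n) (Fin n) ℝ)
  | 0 => {1}
  | k + 1 => {N | ∃ T ∈ S, ∃ M ∈ prods S k, N = T * M}

lemma reach_eq (S : Finset (Matrix (Fin n) (Fin n) ℝ)) (a : Fin n → ℝ) (k : ℕ) :
    reach S a k = (fun M : Matrix (Fin n) (Fin n) ℝ => M *ᵥ a) '' prods S k := by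
  induction k with
  | zero => simp [reach, prods]
  | succ k ih =>
    ext y
    constructor
    · rintro ⟨T, hT, x, hx, rfl⟩
      rw [ih] at hx
      obtain ⟨M, hM, rfl⟩ := hx
      exact ⟨T * M, ⟨T, hT, M, hM, rfl⟩, by simp [mulVec_mulVec]⟩
    · rintro ⟨_, ⟨T, hT, M, hM, rfl⟩, rfl⟩
      refine ⟨T, hT, M *ᵥ a, ?_, by simp [mulVec_mulVec]⟩
      rw [ih]
      exact ⟨M, hM, rfl⟩

lemma reach_finite (S : Finset (Matrix (Fin n) (Fin n) ℝ)) (a : Fin n → ℝ) (k : ℕ) :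
    (reach S a k).Finite ∧ (reach S a k).ncard ≤ S.card ^ k := by
  classical
  induction k with
  | zero => exact ⟨Set.finite_singleton a, by simp [reach]⟩
  | succ k ih =>
    have h1 : reach S a (k + 1) ⊆ (fun p : Matrix (Fin n) (Fin n) ℝ × (Fin n → ℝ) => p.1 *ᵥ p.2) ''
        ((S : Set (Matrix (Fin n) (Fin n) ℝ)) ×ˢ reach S a k) := by
      rintro y ⟨T, hT, x, hx, rfl⟩
      exact ⟨(T, x), ⟨hT, hx⟩, rfl⟩
    have hf : ((S : Set (Matrix (Fin n) (Fin n) ℝ)) ×ˢ reach S a k).Finite :=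
      (Finset.finite_toSet S).prod ih.1
    refine ⟨(hf.image _).subset h1, ?_⟩
    calc _ ≤ _ := Set.ncard_le_ncard h1 (hf.image _)
      _ ≤ _ := Set.ncard_image_le hf
      _ = S.card * (reach S a k).ncard := by rw [Set.ncard_prod, Set.ncard_coe_finset]
      _ ≤ S.card * S.card ^ k := Nat.mul_le_mul_left _ ih.2
      _ = _ := by rw [pow_succ, mul_comm]

lemma numExt_le (S : Finset (Matrix (Fin n) (Fin n) ℝ)) (k : ℕ) (a : Fin n → ℝ) :
    numExt S k a ≤ S.card ^ k :=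
  (Set.ncard_le_ncard extremePoints_convexHull_subset (reach_finite S a k).1).trans
    (reach_finite S a k).2

/-- all values of `T` are multiples of one vector -/
def R1 (T : Matrix (Fin n) (Fin n) ℝ) : Prop :=
  ∃ (u : Fin n → ℝ) (c : (Fin n → ℝ) → ℝ), ∀ x, T *ᵥ x = c x • u

/-- matrices of rank at most one -/
lemma rank_one {T : Matrix (Fin n) (Fin n) ℝ} (h : T.rank ≤ 1) : R1 T := by
  have h1 : Module.finrank ℝ (LinearMap.range T.mulVecLin) ≤ 1 := h
  rw [finrank_le_one_iff] at h1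
  obtain ⟨v, hv⟩ := h1
  have h2 : ∀ x : Fin n → ℝ, ∃ c : ℝ, T *ᵥ x = c • v.1 := by
    intro x
    obtain ⟨c, hc⟩ := hv ⟨T.mulVecLin x, LinearMap.mem_range_self _ x⟩
    refine ⟨c, ?_⟩
    have := congrArg Subtype.val hc
    simpa using this.symm
  choose c hc using h2
  exact ⟨v.1, c, hc⟩

/-- forward composition -/
lemma reach_comp {S₀ S : Finset (Matrix (Fin n) (Fin n) ℝ)} (hsub : S₀ ⊆ S) {a x : Fin n → ℝ}
    {j m : ℕ} (hx : x ∈ reach S a j) {M : Matrix (Fin n) (Fin n) ℝ} (hM : M ∈ prods S₀ m) :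
    M *ᵥ x ∈ reach S a (j + m) := by
  induction m generalizing M with
  | zero =>
    have : M = 1 := hM
    rw [this, one_mulVec]
    exact hx
  | succ m ih =>
    obtain ⟨T, hT, M', hM', rfl⟩ := hM
    rw [← mulVec_mulVec]
    exact ⟨T, hsub hT, _, ih hM', rfl⟩

/-- decomposition at the last matrix outside `S₀` -/
lemma decomp (S₀ S : Finset (Matrix (Fin n) (Fin n) ℝ)) (a : Fin n → ℝ) (k : ℕ) :
    ∀ y ∈ reach S a k, y ∈ reach S₀ a k ∨ ∃ j m : ℕ, j + 1 + m = k ∧ ∃ T ∈ S, T ∉ S₀ ∧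
      ∃ x ∈ reach S a j, ∃ M ∈ prods S₀ m, y = M *ᵥ (T *ᵥ x) := by
  induction k with
  | zero =>
    intro y hy
    exact Or.inl hy
  | succ k ih =>
    rintro y ⟨T, hT, x, hx, rfl⟩
    by_cases hT0 : T ∈ S₀
    · rcases ih x hx with h | ⟨j, m, hjm, T', hT', hT'0, x', hx', M, hM, rfl⟩
      · exact Or.inl ⟨T, hT0, x, h, rfl⟩
      · exact Or.inr ⟨j, m + 1, by omega, T', hT', hT'0, x', hx', T * M, ⟨T, hT0, M, hM, rfl⟩,
          by rw [mulVec_mulVec]⟩
    · exact Or.inr ⟨k, 0, rfl, T, hT, hT0, x, hx, 1, rfl, by rw [one_mulVec]⟩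

lemma ext_of_subset {A B : Set (Fin n → ℝ)} (h : A ⊆ B) {y : Fin n → ℝ} (hy : y ∈ A)
    (hyB : y ∈ Set.extremePoints ℝ (convexHull ℝ B)) : y ∈ Set.extremePoints ℝ (convexHull ℝ A) :=
  inter_extremePoints_subset_extremePoints_of_subset (convexHull_mono h)
    ⟨subset_convexHull ℝ A hy, hyB⟩

/-- the extreme points that pass through a matrix of rank at most one at time `j` -/
lemma through {S₀ S : Finset (Matrix (Fin n) (Fin n) ℝ)} (hsub : S₀ ⊆ S) (a : Fin n → ℝ)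
    {T : Matrix (Fin n) (Fin n) ℝ} (hT : T ∈ S) (hr : R1 T) (j m : ℕ) :
    ∃ lo hi : Fin n → ℝ, ∀ y ∈ Set.extremePoints ℝ (convexHull ℝ (reach S a (j + 1 + m))),
      (∃ x ∈ reach S a j, ∃ M ∈ prods S₀ m, y = M *ᵥ (T *ᵥ x)) →
      y ∈ Set.extremePoints ℝ (convexHull ℝ (reach S₀ lo m)) ∨
      y ∈ Set.extremePoints ℝ (convexHull ℝ (reach S₀ hi m)) := by
  obtain ⟨u, c, hc⟩ := hr
  rcases (reach S a j).eq_empty_or_nonempty with he | hne
  · refine ⟨0, 0, fun y _ ⟨x, hx, _⟩ => ?_⟩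
    rw [he] at hx
    exact absurd hx (Set.notMem_empty x)
  obtain ⟨x0, hx0, hmin⟩ := Set.exists_min_image _ c (reach_finite S a j).1 hne
  obtain ⟨x1, hx1, hmax⟩ := Set.exists_max_image _ c (reach_finite S a j).1 hne
  have hsubr : ∀ x ∈ reach S a j, reach S₀ (T *ᵥ x) m ⊆ reach S a (j + 1 + m) := by
    intro x hx y hy
    rw [reach_eq] at hy
    obtain ⟨M, hM, rfl⟩ := hy
    exact reach_comp hsub (j := j + 1) ⟨T, hT, x, hx, rfl⟩ hM
  have hmem : ∀ (x : Fin n → ℝ) (M : Matrix (Fin n) (Fin n) ℝ), M ∈ prods S₀ m →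
      M *ᵥ (T *ᵥ x) ∈ reach S₀ (T *ᵥ x) m := by
    intro x M hM
    rw [reach_eq]
    exact ⟨M, hM, rfl⟩
  refine ⟨T *ᵥ x0, T *ᵥ x1, ?_⟩
  rintro y hy ⟨x, hx, M, hM, rfl⟩
  have key : M *ᵥ (T *ᵥ x) = M *ᵥ (T *ᵥ x0) ∨ M *ᵥ (T *ᵥ x) = M *ᵥ (T *ᵥ x1) := by
    rcases (hmin x hx).eq_or_lt with h | h
    · left
      rw [hc x, hc x0, h]
    rcases (hmax x hx).eq_or_lt with h' | h'
    · right
      rw [hc x, hc x1, h']
    left
    have h3 : 0 < c x1 - c x0 := by linarith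
    have hseg : M *ᵥ (T *ᵥ x) ∈ openSegment ℝ (M *ᵥ (T *ᵥ x0)) (M *ᵥ (T *ᵥ x1)) := by
      refine ⟨(c x1 - c x) / (c x1 - c x0), (c x - c x0) / (c x1 - c x0),
        div_pos (by linarith) h3, div_pos (by linarith) h3, ?_, ?_⟩
      · rw [← add_div, div_eq_one_iff_eq h3.ne']
        ring
      · rw [hc x, hc x0, hc x1, mulVec_smul, mulVec_smul, mulVec_smul, smul_smul, smul_smul,
          ← add_smul]
        congr 1
        field_simp
        ring
    exact (hy.2 (subset_convexHull ℝ _ (hsubr x0 hx0 (hmem x0 M hM)))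
      (subset_convexHull ℝ _ (hsubr x1 hx1 (hmem x1 M hM))) hseg).symm
  rcases key with h | h
  · left
    refine ext_of_subset (hsubr x0 hx0) ?_ hy
    rw [h]
    exact hmem x0 M hM
  · right
    refine ext_of_subset (hsubr x1 hx1) ?_ hy
    rw [h]
    exact hmem x1 M hM

lemma count {S₀ S : Finset (Matrix (Fin n) (Fin n) ℝ)} (hsub : S₀ ⊆ S)
    (hr : ∀ T ∈ S, T ∉ S₀ → R1 T) (a : Fin n → ℝ) {k β : ℕ}
    (hβ : ∀ m ≤ k, ∀ v : Fin n → ℝ, numExt S₀ m v ≤ β) :
    numExt S k a ≤ β + k * S.card * (2 * β) := by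
  classical
  have hfin : ∀ (m : ℕ) (v : Fin n → ℝ),
      (Set.extremePoints ℝ (convexHull ℝ (reach S₀ v m))).Finite := fun m v =>
    (reach_finite S₀ v m).1.subset extremePoints_convexHull_subset
  have hA : ∀ p : ℕ × Matrix (Fin n) (Fin n) ℝ, ∃ A : Finset (Fin n → ℝ), A.card ≤ 2 * β ∧
      (p.2 ∈ S → p.2 ∉ S₀ → ∀ m : ℕ, p.1 + 1 + m = k →
        ∀ y ∈ Set.extremePoints ℝ (convexHull ℝ (reach S a k)),
        (∃ x ∈ reach S a p.1, ∃ M ∈ prods S₀ m, y = M *ᵥ (p.2 *ᵥ x)) → y ∈ A) := by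
    rintro ⟨j, T⟩
    by_cases h : T ∈ S ∧ T ∉ S₀ ∧ j + 1 ≤ k
    · obtain ⟨lo, hi, hlh⟩ := through hsub a h.1 (hr T h.1 h.2.1) j (k - (j + 1))
      refine ⟨(hfin (k - (j + 1)) lo).toFinset ∪ (hfin (k - (j + 1)) hi).toFinset, ?_, ?_⟩
      · refine (Finset.card_union_le _ _).trans ?_
        rw [← Set.ncard_eq_toFinset_card _ (hfin (k - (j + 1)) lo),
          ← Set.ncard_eq_toFinset_card _ (hfin (k - (j + 1)) hi)]
        have h1 := hβ (k - (j + 1)) (by omega) lo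
        have h2 := hβ (k - (j + 1)) (by omega) hi
        unfold numExt at h1 h2
        omega
      · intro _ _ m hm y hy hex
        have hm' : m = k - (j + 1) := by
          simp only at hm
          omega
        subst hm'
        have e : j + 1 + (k - (j + 1)) = k := by omega
        rw [e] at hlh
        rcases hlh y hy hex with h1 | h1
        · exact Finset.mem_union_left _ ((hfin _ lo).mem_toFinset.2 h1)
        · exact Finset.mem_union_right _ ((hfin _ hi).mem_toFinset.2 h1)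
    · refine ⟨∅, by simp, fun h1 h2 m hm => ?_⟩
      exfalso
      apply h
      simp only at hm h1 h2
      exact ⟨h1, h2, by omega⟩
  choose A hA1 hA2 using hA
  have hcov : Set.extremePoints ℝ (convexHull ℝ (reach S a k)) ⊆
      (((hfin k a).toFinset ∪ (Finset.range k ×ˢ S).biUnion A : Finset (Fin n → ℝ)) :
        Set (Fin n → ℝ)) := by
    intro y hy
    rw [Finset.coe_union]
    have hyr : y ∈ reach S a k := extremePoints_convexHull_subset hy
    rcases decomp S₀ S a k y hyr with h | ⟨j, m, hjm, T, hT, hT0, x, hx, M, hM, hyM⟩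
    · left
      rw [Finset.mem_coe, (hfin k a).mem_toFinset]
      refine ext_of_subset ?_ h hy
      intro z hz
      rw [reach_eq] at hz
      obtain ⟨M, hM, rfl⟩ := hz
      have := reach_comp hsub (S := S) (a := a) (x := a) (j := 0) rfl hM
      rwa [zero_add] at this
    · right
      rw [Finset.mem_coe, Finset.mem_biUnion]
      exact ⟨(j, T), Finset.mem_product.2 ⟨Finset.mem_range.2 (by omega), hT⟩,
        hA2 (j, T) hT hT0 m hjm y hy ⟨x, hx, M, hM, hyM⟩⟩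
  unfold numExt
  calc _ ≤ _ := Set.ncard_le_ncard hcov (Finset.finite_toSet _)
    _ = _ := Set.ncard_coe_finset _
    _ ≤ (hfin k a).toFinset.card + ((Finset.range k ×ˢ S).biUnion A).card :=
        Finset.card_union_le _ _
    _ ≤ β + (Finset.range k ×ˢ S).card * (2 * β) := by
        refine add_le_add ?_ (Finset.card_biUnion_le_card_mul _ _ _ fun p _ => hA1 p)
        rw [← Set.ncard_eq_toFinset_card _ (hfin k a)]
        exact hβ k le_rfl a
    _ = _ := by rw [Finset.card_product, Finset.card_range]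

/-- Adding matrices of rank at most one preserves (PV). -/
theorem pv_extend {n : ℕ} (S₀ S : Finset (Matrix (Fin n) (Fin n) ℝ)) (hsub : S₀ ⊆ S)
    (hr : ∀ T ∈ S, T ∉ S₀ → R1 T) (h : PV S₀) : PV S := by
  obtain ⟨α, d, hα, hd, k₀, hk₀, hk⟩ := h
  set K : ℕ := (S₀.card + 1) ^ k₀ with hK
  refine ⟨(α + 1 + K) * (1 + 2 * S.card), d + 1, by positivity, by positivity, 1, one_pos, ?_⟩
  intro k hk1 a
  have hk1' : (1 : ℝ) ≤ k := by exact_mod_cast hk1
  have hkd : (1 : ℝ) ≤ (k : ℝ) ^ d := Real.one_le_rpow hk1' hd.le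
  set β : ℕ := ⌈α * (k : ℝ) ^ d⌉₊ + K with hβ
  have h1 : ∀ m ≤ k, ∀ v : Fin n → ℝ, numExt S₀ m v ≤ β := by
    intro m hm v
    by_cases hmk : k₀ ≤ m
    · have h2 := hk m hmk v
      have h3 : (m : ℝ) ^ d ≤ (k : ℝ) ^ d :=
        Real.rpow_le_rpow (by positivity) (by exact_mod_cast hm) hd.le
      have h4 : (numExt S₀ m v : ℝ) ≤ ⌈α * (k : ℝ) ^ d⌉₊ :=
        (h2.trans (mul_le_mul_of_nonneg_left h3 hα.le)).trans (Nat.le_ceil _)
      have h5 : numExt S₀ m v ≤ ⌈α * (k : ℝ) ^ d⌉₊ := by exact_mod_cast h4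
      omega
    · have h2 := numExt_le S₀ m v
      have h3 : S₀.card ^ m ≤ K := by
        calc S₀.card ^ m ≤ (S₀.card + 1) ^ m := Nat.pow_le_pow_left (Nat.le_succ _) _
          _ ≤ _ := Nat.pow_le_pow_right (Nat.succ_pos _) (by omega)
      omega
  have h2 := count hsub hr a h1
  have h3 : (numExt S k a : ℝ) ≤ β + k * S.card * (2 * β) := by exact_mod_cast h2
  have h4 : (β : ℝ) ≤ (α + 1 + K) * (k : ℝ) ^ d := by
    have h5 : (⌈α * (k : ℝ) ^ d⌉₊ : ℝ) ≤ α * (k : ℝ) ^ d + 1 :=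
      (Nat.ceil_lt_add_one (by positivity)).le
    have h6 : (K : ℝ) ≤ K * (k : ℝ) ^ d := le_mul_of_one_le_right (by positivity) hkd
    rw [hβ]
    push_cast
    nlinarith
  have hβ0 : (0 : ℝ) ≤ β := by positivity
  have hS0 : (0 : ℝ) ≤ (S.card : ℝ) := by positivity
  calc (numExt S k a : ℝ) ≤ β + k * S.card * (2 * β) := h3
    _ = β * (1 + 2 * S.card * k) := by ring
    _ ≤ β * ((1 + 2 * S.card) * k) := by
        refine mul_le_mul_of_nonneg_left ?_ hβ0
        nlinarith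
    _ ≤ ((α + 1 + K) * (k : ℝ) ^ d) * ((1 + 2 * S.card) * k) := by
        refine mul_le_mul_of_nonneg_right h4 (by positivity)
    _ = (α + 1 + K) * (1 + 2 * S.card) * (k : ℝ) ^ (d + 1) := by
        rw [Real.rpow_add (by positivity), Real.rpow_one]
        ring

/-- **Adding matrices of rank at most one preserves property (PV).** -/
theorem result (n : ℕ) (S₀ S : Finset (Matrix (Fin n) (Fin n) ℝ)) (hsub : S₀ ⊆ S)
    (hr : ∀ T ∈ S, T ∉ S₀ → T.rank ≤ 1) (h : PV S₀) : PV S :=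
  pv_extend S₀ S hsub (fun T hT hT0 => rank_one (hr T hT hT0)) h

end Pool.Agent.Results.MP_34a884_an.RankOneExtension
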